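import Pool.Agent.N422.NWS.Stm

/-! Project NWS, package MOM (helper796): the moments of the kernel of one site. -/

set_option autoImplicit false

open Finset

namespace Pool.Agent.U796.NWS

open Pool.Agent.N422.NW Pool.Agent.N422.NWS

/-- a sum over sets of a product over the fibres is a product of sums -/
theorem sum_fac {α ι K : Type} [Fintype α] [DecidableEq α] [Fintype ι] [DecidableEq ι] [CommSemiring K]
    (w : α → ι) (F U : Finset α) (g : ι → Finset α → K) :
    ∑ T ∈ U.powerset.filter (fun T => F ⊆ T), ∏ l, g l (T.filter (fun i => w i = l)) =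
      ∏ l, ∑ S ∈ (U.filter (fun i => w i = l)).powerset.filter
        (fun S => F.filter (fun i => w i = l) ⊆ S), g l S := by
  rw [Finset.prod_univ_sum]
  refine Finset.sum_bij' (fun T _ l => T.filter (fun i => w i = l))
    (fun x _ => univ.filter (fun i => i ∈ x (w i))) ?_ ?_ ?_ ?_ ?_
  · intro T hT
    simp only [Fintype.mem_piFinset, mem_filter, mem_powerset] at hT ⊢
    intro l
    exact ⟨filter_subset_filter _ hT.1, filter_subset_filter _ hT.2⟩
  · intro x hx
    simp only [Fintype.mem_piFinset, mem_filter, mem_powerset] at hx ⊢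
    constructor
    · intro i hi
      rw [mem_filter] at hi
      exact (mem_filter.1 ((hx (w i)).1 hi.2)).1
    · intro i hi
      rw [mem_filter]
      exact ⟨mem_univ _, (hx (w i)).2 (mem_filter.2 ⟨hi, rfl⟩)⟩
  · intro T hT
    ext i
    simp
  · intro x hx
    simp only [Fintype.mem_piFinset, mem_filter, mem_powerset] at hx
    funext l
    ext i
    simp only [mem_filter, mem_univ, true_and]
    constructor
    · rintro ⟨h1, h2⟩
      rw [← h2]
      exact h1
    · intro h
      have h2 := (mem_filter.1 ((hx l).1 h)).2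
      exact ⟨by rw [h2]; exact h, h2⟩
  · intro T hT
    rfl

theorem sum_law {α K : Type} [DecidableEq α] [CommRing K] (W : Finset α) (u : α → K) :
    ∑ S ∈ W.powerset, ∏ i ∈ W, (if i ∈ S then u i else 1 - u i) = 1 := by
  have h := Finset.prod_add u (fun i => 1 - u i) W
  have h1 : ∏ i ∈ W, (u i + (1 - u i)) = 1 := prod_eq_one fun i _ => by ring
  refine Eq.trans ?_ (h.symm.trans h1)
  refine sum_congr rfl fun S hS => ?_
  rw [mem_powerset] at hS
  rw [← prod_sdiff hS, mul_comm]
  congr 1
  · exact prod_congr rfl fun i hi => by rw [if_pos hi]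
  · exact prod_congr rfl fun i hi => by rw [if_neg (mem_sdiff.1 hi).2]

/-- the moments which vanish -/
theorem mom_zero {N m : ℕ} {K : Type} [Field K] (W : Finset (Fin N)) (cel : Fin N → Fin m) (u : Fin N → K)
    (p : Fin m → K) (hp : ∀ c, p c = 1 - ∏ i ∈ W.filter (fun i => cel i = c), (1 - u i))
    (F : Finset (Fin N)) (A : Finset (Fin m)) (c0 : Fin m) (h0 : c0 ∈ A) (h1 : c0 ∉ F.image cel) :
    ∑ S ∈ W.powerset.filter (fun S => F ⊆ S), (∏ i ∈ W, (if i ∈ S then u i else 1 - u i)) *
      ee p A (S.image cel) = 0 := by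
  classical
  let g : Fin m → Finset (Fin N) → K := fun c S =>
    (∏ i ∈ W.filter (fun i => cel i = c), (if i ∈ S then u i else 1 - u i)) *
      (if c ∈ A then ((if S = ∅ then 0 else 1) - p c) else 1)
  have e1 : ∀ S ∈ W.powerset.filter (fun S => F ⊆ S), (∏ i ∈ W, (if i ∈ S then u i else 1 - u i)) *
      ee p A (S.image cel) = ∏ c, g c (S.filter (fun i => cel i = c)) := by
    intro S hS
    simp only [g]
    rw [prod_mul_distrib]
    congr 1
    · rw [← prod_fiberwise_of_maps_to (g := cel) (t := univ) (fun i _ => mem_univ _)]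
      refine prod_congr rfl fun c _ => prod_congr rfl fun i hi => ?_
      rw [mem_filter] at hi
      simp [hi.2]
    · rw [ee, prod_ite_mem, univ_inter]
      refine prod_congr rfl fun c _ => ?_
      congr 1
      by_cases hc : c ∈ S.image cel
      · rw [if_pos hc, if_neg]
        obtain ⟨i, hi, hic⟩ := mem_image.1 hc
        exact ne_empty_of_mem (mem_filter.2 ⟨hi, hic⟩)
      · rw [if_neg hc, if_pos]
        rw [filter_eq_empty_iff]
        intro i hi hic
        exact hc (mem_image.2 ⟨i, hi, hic⟩)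
  rw [sum_congr rfl e1, sum_fac]
  refine prod_eq_zero (mem_univ c0) ?_
  have hF : F.filter (fun i => cel i = c0) = ∅ := by
    rw [filter_eq_empty_iff]
    intro i hi hic
    exact h1 (mem_image.2 ⟨i, hi, hic⟩)
  have e2 : ((W.filter (fun i => cel i = c0)).powerset.filter
      (fun S => F.filter (fun i => cel i = c0) ⊆ S)) = (W.filter (fun i => cel i = c0)).powerset := by
    rw [hF]
    exact filter_true_of_mem fun S _ => empty_subset S
  rw [e2]
  simp only [g, if_pos h0]
  have e3 : ∀ S ∈ (W.filter (fun i => cel i = c0)).powerset,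
      (∏ i ∈ W.filter (fun i => cel i = c0), (if i ∈ S then u i else 1 - u i)) *
        ((if S = ∅ then 0 else 1) - p c0) =
      (∏ i ∈ W.filter (fun i => cel i = c0), (if i ∈ S then u i else 1 - u i)) * (1 - p c0) -
        (if S = ∅ then ∏ i ∈ W.filter (fun i => cel i = c0), (1 - u i) else 0) := by
    intro S _
    by_cases hS : S = ∅
    · subst hS
      simp
      ring
    · simp [hS]
  rw [sum_congr rfl e3, sum_sub_distrib, ← sum_mul, sum_law, one_mul, sum_ite_eq' , if_pos (empty_mem_powerset _),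
    hp c0]
  ring

/-- `z^n g(z)` is a polynomial -/
def IsP (n : ℕ) (g : ℂ → ℂ) : Prop := ∃ P : Polynomial ℂ, ∀ z : ℂ, z ≠ 0 → P.eval z = z ^ n * g z

theorem IsP.const (n : ℕ) (c : ℂ) : IsP n (fun _ => c) :=
  ⟨Polynomial.X ^ n * Polynomial.C c, fun z _ => by
    rw [Polynomial.eval_mul, Polynomial.eval_pow, Polynomial.eval_X, Polynomial.eval_C]⟩

theorem IsP.add {n : ℕ} {g h : ℂ → ℂ} (hg : IsP n g) (hh : IsP n h) : IsP n (fun z => g z + h z) := by
  obtain ⟨P, hP⟩ := hg
  obtain ⟨Q, hQ⟩ := hh
  exact ⟨P + Q, fun z hz => by rw [Polynomial.eval_add, hP z hz, hQ z hz]; ring⟩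

theorem IsP.cmul {n : ℕ} {g : ℂ → ℂ} (c : ℂ) (hg : IsP n g) : IsP n (fun z => c * g z) := by
  obtain ⟨P, hP⟩ := hg
  exact ⟨Polynomial.C c * P, fun z hz => by rw [Polynomial.eval_mul, Polynomial.eval_C, hP z hz]; ring⟩

theorem IsP.sum {ι : Type} (s : Finset ι) {n : ℕ} (g : ι → ℂ → ℂ) (hg : ∀ i ∈ s, IsP n (g i)) :
    IsP n (fun z => ∑ i ∈ s, g i z) := by
  classical
  induction s using Finset.induction_on with
  | empty => simpa using IsP.const n 0
  | insert a s ha ih =>
    have h1 := (hg a (mem_insert_self a s)).add (ih fun i hi => hg i (mem_insert_of_mem hi))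
    simpa [sum_insert ha] using h1

theorem IsP.prod {ι : Type} (s : Finset ι) (n : ι → ℕ) (g : ι → ℂ → ℂ) (hg : ∀ i ∈ s, IsP (n i) (g i)) :
    IsP (∑ i ∈ s, n i) (fun z => ∏ i ∈ s, g i z) := by
  classical
  induction s using Finset.induction_on with
  | empty => simpa using IsP.const 0 1
  | insert a s ha ih =>
    obtain ⟨P, hP⟩ := hg a (mem_insert_self a s)
    obtain ⟨Q, hQ⟩ := ih fun i hi => hg i (mem_insert_of_mem hi)
    refine ⟨P * Q, fun z hz => ?_⟩
    rw [Polynomial.eval_mul, hP z hz, hQ z hz, sum_insert ha, pow_add]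
    simp only [prod_insert ha]
    ring

theorem IsP.cz {n y : ℕ} (t : ℝ) (h : y ≤ n) : IsP n (fun z => cz t y z) := by
  refine ⟨Polynomial.C (Real.cosh (y * t) : ℂ) * Polynomial.X ^ n -
    Polynomial.C (1 / 2) * (Polynomial.X ^ (n + y) + Polynomial.X ^ (n - y)), fun z hz => ?_⟩
  have h1 : z ^ n * (z⁻¹) ^ y = z ^ (n - y) := by
    rw [inv_pow, ← div_eq_mul_inv, pow_sub₀ z hz h, div_eq_mul_inv]
  simp only [Polynomial.eval_sub, Polynomial.eval_mul, Polynomial.eval_C, Polynomial.eval_pow, Polynomial.eval_X,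
    Polynomial.eval_add, N422.NWS.cz]
  rw [← h1, pow_add]
  ring

theorem IsP.congr {n : ℕ} {g h : ℂ → ℂ} (hg : IsP n g) (hgh : ∀ z, h z = g z) : IsP n h := by
  obtain ⟨P, hP⟩ := hg
  exact ⟨P, fun z hz => by rw [hP z hz, hgh]⟩

theorem sz_le {N m : ℕ} (hs : Fin m → ℕ) (cel : Fin N → Fin m) (F : Finset (Fin N)) (A : Finset (Fin m))
    (hA : A ⊆ F.image cel) : sz hs A ≤ ∑ i ∈ F, hs (cel i) := by
  unfold sz
  calc ∑ c ∈ A, hs c ≤ ∑ c ∈ F.image cel, hs c := sum_le_sum_of_subset hA
    _ ≤ ∑ c ∈ F.image cel, ∑ i ∈ F.filter (fun i => cel i = c), hs (cel i) := by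
        refine sum_le_sum fun c hc => ?_
        obtain ⟨i, hi, hic⟩ := mem_image.1 hc
        calc hs c = hs (cel i) := by rw [hic]
          _ ≤ _ := single_le_sum (f := fun i => hs (cel i)) (fun _ _ => Nat.zero_le _) (mem_filter.2 ⟨hi, hic⟩)
    _ = ∑ i ∈ F, hs (cel i) := sum_fiberwise_of_maps_to (fun i hi => mem_image_of_mem cel hi) _

/-- one window -/
theorem win_isP {N m : ℕ} (W : Finset (Fin N)) (cel : Fin N → Fin m) (u : Fin N → ℂ) (p : Fin m → ℂ)
    (hp : ∀ c, p c = 1 - ∏ i ∈ W.filter (fun i => cel i = c), (1 - u i)) (t : ℝ) (κ : ℂ) (v : ℕ)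
    (hs : Fin m → ℕ) (hhs : ∀ c, 1 ≤ hs c) (a : Finset (Fin m) → ℂ) (F T : Finset (Fin N)) (hT : T ⊆ W) :
    IsP (∑ i ∈ F, v * hs (cel i)) (fun z => ∑ S ∈ W.powerset.filter (fun S => F ⊆ S),
      ((1 - κ * cz t v z) * (if S = T then 1 else 0) +
        (∏ i ∈ W, (if i ∈ S then u i else 1 - u i)) * th κ (fun x => cz t x z) v hs p a (S.image cel))) := by
  set Q := W.powerset.filter (fun S => F ⊆ S) with hQ
  set M : Finset (Fin m) → ℂ := fun A => ∑ S ∈ Q, (∏ i ∈ W, (if i ∈ S then u i else 1 - u i)) *
    ee p A (S.image cel) with hM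
  have key : ∀ z, (∑ S ∈ Q, ((1 - κ * cz t v z) * (if S = T then 1 else 0) +
        (∏ i ∈ W, (if i ∈ S then u i else 1 - u i)) * th κ (fun x => cz t x z) v hs p a (S.image cel))) =
      (1 - κ * cz t v z) * (∑ S ∈ Q, if S = T then 1 else 0) + κ * cz t v z *
        (∑ S ∈ Q, ∏ i ∈ W, (if i ∈ S then u i else 1 - u i)) +
        ∑ A ∈ univ.erase (∅ : Finset (Fin m)), a A * M A * cz t (v * sz hs A) z := by
    intro z
    rw [sum_add_distrib, ← mul_sum, add_assoc]
    congr 1
    simp only [th, mul_add]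
    rw [sum_add_distrib]
    congr 1
    · rw [mul_sum]
      exact sum_congr rfl fun S _ => by ring
    · simp only [hM, mul_sum, sum_mul]
      rw [sum_comm]
      exact sum_congr rfl fun A _ => sum_congr rfl fun S _ => by ring
  refine IsP.congr ?_ key
  have hM0 : ∀ A, ¬ A ⊆ F.image cel → M A = 0 := by
    intro A hA
    obtain ⟨c0, h0, h1⟩ := not_subset.1 hA
    exact mom_zero W cel u p hp F A c0 h0 h1
  by_cases hF : F = ∅
  · subst hF
    have hQ' : Q = W.powerset := by
      rw [hQ]
      exact filter_true_of_mem fun S _ => empty_subset S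
    have h3 : ∀ A ∈ univ.erase (∅ : Finset (Fin m)), M A = 0 := by
      intro A hA
      refine hM0 A fun h => ?_
      rw [image_empty, subset_empty] at h
      exact (mem_erase.1 hA).1 h
    refine IsP.congr (IsP.const _ 1) fun z => ?_
    rw [hQ', sum_law, sum_ite_eq', if_pos (mem_powerset.2 hT),
      sum_eq_zero (s := univ.erase (∅ : Finset (Fin m))) (fun A hA => by rw [h3 A hA]; ring)]
    ring
  · obtain ⟨i0, hi0⟩ := nonempty_iff_ne_empty.2 hF
    have hv : v ≤ ∑ i ∈ F, v * hs (cel i) := by
      calc v ≤ v * hs (cel i0) := Nat.le_mul_of_pos_right _ (hhs _)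
        _ ≤ _ := single_le_sum (f := fun i => v * hs (cel i)) (fun _ _ => Nat.zero_le _) hi0
    have hc := IsP.cz (n := ∑ i ∈ F, v * hs (cel i)) t hv
    refine IsP.add (IsP.add ?_ ?_) (IsP.sum _ _ fun A _ => ?_)
    · have h1 := ((IsP.const (∑ i ∈ F, v * hs (cel i)) 1).add (hc.cmul (-κ))).cmul
        (∑ S ∈ Q, if S = T then (1 : ℂ) else 0)
      exact h1.congr fun z => by ring
    · exact (hc.cmul (κ * (∑ S ∈ Q, ∏ i ∈ W, (if i ∈ S then u i else 1 - u i)))).congr fun z => by ring
    · by_cases hA : A ⊆ F.image cel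
      · refine (IsP.cz t ?_).cmul _
        rw [← mul_sum]
        exact Nat.mul_le_mul_left v (sz_le hs cel F A hA)
      · rw [hM0 A hA]
        exact (IsP.const _ 0).congr fun z => by ring

theorem t_MOM : Pool.Agent.N422.NWS.S_MOM := by
  intro N m L win cel u t κ v hs a hhs hwin
  constructor
  · intro T F
    set w : Fin N → Fin L := fun i => ⟨win i, hwin i⟩ with hw
    have hwl : ∀ (l : Fin L) (i : Fin N), w i = l ↔ win i = (l : ℕ) := by
      intro l i
      rw [hw, Fin.ext_iff]
    set p : ℕ → Fin m → ℂ := fun l c => (pc win cel u l c : ℂ) with hpdef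
    let G : ℂ → Fin L → Finset (Fin N) → ℂ := fun z l S =>
      if (∀ i ∈ T, (l : ℕ) ≤ win i) then
        (1 - (κ : ℂ) * cz t (v l) z) * (if S = T.filter (fun i => w i = l) then 1 else 0) +
          (∏ i ∈ univ.filter (fun i => w i = l), (if i ∈ S then (u i : ℂ) else 1 - u i)) *
          th (κ : ℂ) (fun x => cz t x z) (v l) hs (p l) (fun A => (a l A : ℂ)) (S.image cel)
      else (if S = T.filter (fun i => w i = l) then 1 else 0)
    have hTl : ∀ (X : Finset (Fin N)) (l : Fin L), Tl win X l = X.filter (fun i => w i = l) := by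
      intro X l
      unfold Tl
      exact filter_congr fun i _ => (hwl l i).symm
    have hW : ∀ l : Fin L, (univ.filter (fun i => win i = (l : ℕ)) : Finset (Fin N)) =
        univ.filter (fun i => w i = l) := fun l => filter_congr fun i _ => (hwl l i).symm
    have hmW : ∀ (T' : Finset (Fin N)) (l : Fin L), mW win (fun i => (u i : ℂ)) l T' =
        ∏ i ∈ univ.filter (fun i => w i = l), (if i ∈ T'.filter (fun i => w i = l) then (u i : ℂ) else 1 - u i) := by
      intro T' l
      unfold mW
      rw [hW]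
      refine prod_congr rfl fun i hi => ?_
      have hi' := (mem_filter.1 hi).2
      simp [hi']
    have hKW : ∀ z T', KW win cel (fun i => (u i : ℂ)) L (fun l => (κ : ℂ) * cz t (v l) z)
        (fun l X => th (κ : ℂ) (fun x => cz t x z) (v l) hs (fun c => (pc win cel u l c : ℂ))
          (fun A => (a l A : ℂ)) X) T T' = ∏ l : Fin L, G z l (T'.filter (fun i => w i = l)) := by
      intro z T'
      unfold KW
      rw [prod_range]
      refine prod_congr rfl fun l _ => ?_
      simp only [G, hTl, hmW, hpdef]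
    have hfin : ∀ l : Fin L, IsP (∑ i ∈ F.filter (fun i => w i = l), v (win i) * hs (cel i))
        (fun z => ∑ S ∈ (univ.filter (fun i => w i = l)).powerset.filter
          (fun S => F.filter (fun i => w i = l) ⊆ S), G z l S) := by
      intro l
      by_cases hl : ∀ i ∈ T, (l : ℕ) ≤ win i
      · have h1 := win_isP (univ.filter (fun i => w i = l)) cel (fun i => (u i : ℂ)) (p l) (fun c => by
            rw [hpdef]
            simp only [pc]
            push_cast
            congr 1
            refine prod_congr ?_ fun _ _ => rfl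
            ext i
            simp only [mem_filter, mem_univ, true_and, hwl]) t (κ : ℂ) (v l) hs hhs (fun A => (a l A : ℂ))
            (F.filter (fun i => w i = l)) (T.filter (fun i => w i = l))
            (fun i hi => mem_filter.2 ⟨mem_univ _, (mem_filter.1 hi).2⟩)
        have e : ∑ i ∈ F.filter (fun i => w i = l), v (win i) * hs (cel i) =
            ∑ i ∈ F.filter (fun i => w i = l), v l * hs (cel i) := by
          refine sum_congr rfl fun i hi => ?_
          rw [(hwl l i).1 (mem_filter.1 hi).2]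
        rw [e]
        refine h1.congr fun z => sum_congr rfl fun S _ => ?_
        simp only [G, if_pos hl]
      · refine (IsP.const _ (∑ S ∈ (univ.filter (fun i => w i = l)).powerset.filter
          (fun S => F.filter (fun i => w i = l) ⊆ S), (if S = T.filter (fun i => w i = l) then (1 : ℂ) else 0))).congr
          fun z => sum_congr rfl fun S _ => ?_
        simp only [G, if_neg hl]
    obtain ⟨P, hP⟩ := IsP.prod univ _ _ (fun l _ => hfin l)
    refine ⟨P, fun z hz => ?_⟩
    rw [hP z hz]
    congr 1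
    · congr 1
      exact sum_fiberwise_of_maps_to (g := w) (t := univ) (fun i _ => mem_univ _) _
    · simp only []
      rw [← sum_fac w F univ (G z)]
      have e2 : (univ : Finset (Fin N)).powerset.filter (fun T' => F ⊆ T') = univ.filter (fun T' => F ⊆ T') := by
        ext X
        simp
      rw [e2]
      exact sum_congr rfl fun T' _ => (hKW z T').symm
  · intro l c
    set W : Finset (Fin N) := univ.filter (fun i => win i = l) with hWdef
    have hp : ∀ c', pc win cel u l c' = 1 - ∏ i ∈ W.filter (fun i => cel i = c'), (1 - u i) := by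
      intro c'
      unfold pc
      congr 1
      refine prod_congr ?_ fun _ _ => rfl
      ext i
      simp [hWdef]
    have e1 : ∀ S ∈ W.powerset, mW win u l S * th κ c (v l) hs (pc win cel u l) (a l) (S.image cel) =
        (∏ i ∈ W, (if i ∈ S then u i else 1 - u i)) * (κ * c (v l)) +
        ∑ A ∈ univ.erase (∅ : Finset (Fin m)), a l A * c (v l * sz hs A) *
          ((∏ i ∈ W, (if i ∈ S then u i else 1 - u i)) * ee (pc win cel u l) A (S.image cel)) := by
      intro S _
      unfold mW th
      rw [mul_add, mul_sum]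
      congr 1
      exact sum_congr rfl fun A _ => by ring
    rw [sum_congr rfl e1, sum_add_distrib, ← sum_mul, sum_law, sum_comm]
    have e2 : ∀ A ∈ univ.erase (∅ : Finset (Fin m)), ∑ S ∈ W.powerset, a l A * c (v l * sz hs A) *
          ((∏ i ∈ W, (if i ∈ S then u i else 1 - u i)) * ee (pc win cel u l) A (S.image cel)) = 0 := by
      intro A hA
      rw [← mul_sum]
      obtain ⟨c0, hc0⟩ := nonempty_iff_ne_empty.2 (mem_erase.1 hA).1
      have h := mom_zero W cel u (pc win cel u l) hp ∅ A c0 hc0 (by simp)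
      have e3 : W.powerset.filter (fun S => (∅ : Finset (Fin N)) ⊆ S) = W.powerset :=
        filter_true_of_mem fun S _ => empty_subset S
      rw [e3] at h
      rw [h, mul_zero]
    rw [sum_eq_zero e2]
    ring

end Pool.Agent.U796.NWS
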